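import Pool.Agent.W890.SF.Stm

/-!
# Project SAM, part LNK: one link
-/

set_option autoImplicit false
set_option maxHeartbeats 1000000

namespace Pool.Agent.W19.SAM

open Finset Pool.Agent.W890.SF

variable {V : Type} [Fintype V] [DecidableEq V]

/-- the number of maps with a given image -/
theorem card_image_eq (r : ℕ) (e : Finset V) (he : e.card = r) :
    r.factorial ≤ (univ.filter (fun f : Fin r → V => univ.image f = e)).card := by
  classical
  have h1 : Fintype.card (Fin r ≃ e) = r.factorial := by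
    have h2 : Fintype.card (Fin r) = Fintype.card e := by
      rw [Fintype.card_fin, Fintype.card_coe, he]
    rw [Fintype.card_equiv (Fintype.equivOfCardEq h2), Fintype.card_fin]
  rw [← h1, ← Finset.card_univ]
  refine Finset.card_le_card_of_injOn (fun σ => fun i => ((σ i : e) : V)) ?_ ?_
  · intro σ _
    simp only [coe_filter, mem_univ, true_and, Set.mem_setOf_eq]
    ext v
    simp only [mem_image, mem_univ, true_and]
    constructor
    · rintro ⟨i, rfl⟩
      exact (σ i).2
    · intro hv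
      exact ⟨σ.symm ⟨v, hv⟩, by simp⟩
  · intro σ _ σ' _ h
    ext i
    exact congrFun h i

/-- maps with image in `L` -/
theorem card_image_mem (r : ℕ) (L : Finset (Finset V)) (hL : ∀ e ∈ L, e.card = r) :
    r.factorial * L.card ≤ (univ.filter (fun f : Fin r → V => univ.image f ∈ L)).card := by
  classical
  have hmaps : Set.MapsTo (fun f : Fin r → V => univ.image f)
      ((univ.filter (fun f : Fin r → V => univ.image f ∈ L) : Finset (Fin r → V)) :
        Set (Fin r → V)) (L : Set (Finset V)) := by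
    intro f hf
    have hf' : f ∈ univ.filter (fun f : Fin r → V => univ.image f ∈ L) := hf
    exact (mem_filter.1 hf').2
  refine le_of_le_of_eq ?_ (Finset.card_eq_sum_card_fiberwise hmaps).symm
  rw [mul_comm, ← smul_eq_mul, ← Finset.sum_const]
  refine Finset.sum_le_sum fun e he => (card_image_eq r e (hL e he)).trans ?_
  refine Finset.card_le_card fun f hf => ?_
  rw [mem_filter] at hf
  rw [mem_filter, mem_filter]
  exact ⟨⟨mem_univ _, by rw [hf.2]; exact he⟩, hf.2⟩

/-- sum over the image of an injective map -/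
theorem sum_image (r : ℕ) (e : Finset V) (he : e.card = r) (f : Fin r → V)
    (hf : univ.image f = e) (y : V → ℝ) : ∑ i, y (f i) = ∑ v ∈ e, y v := by
  have hinj : Set.InjOn f (univ : Finset (Fin r)) := by
    rw [← Finset.card_image_iff, hf, he, Finset.card_univ, Fintype.card_fin]
  rw [← hf, Finset.sum_image hinj]

theorem fact_low (n r : ℕ) (hn : 1 ≤ n) (η : ℝ) (h : 2 * (r : ℝ) ^ 2 ≤ η * n) (hrn : r ≤ n) :
    (1 - η / 2) * (n : ℝ) ^ r ≤ (r.factorial : ℝ) * ((n - 1).choose r : ℝ) := by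
  have hn0 : (0 : ℝ) < n := by exact_mod_cast hn
  have h1 : (n - r) ^ r ≤ r.factorial * (n - 1).choose r := by
    have h2 := Nat.pow_sub_le_descFactorial (n - 1) r
    rw [Nat.sub_add_cancel hn, Nat.descFactorial_eq_factorial_mul_choose] at h2
    exact h2
  have h3 : (((n - r : ℕ) : ℝ)) ^ r ≤ (r.factorial : ℝ) * ((n - 1).choose r : ℝ) := by
    exact_mod_cast h1
  refine le_trans ?_ h3
  rw [Nat.cast_sub hrn]
  have hrn' : (r : ℝ) ≤ n := by exact_mod_cast hrn
  have h4 : (n : ℝ) - r = n * (1 + -(r / n)) := by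
    field_simp
    ring
  have h5 : (1 : ℝ) + r * (-(r / n)) ≤ (1 + -(r / n)) ^ r := by
    refine one_add_mul_le_pow ?_ r
    have : (r : ℝ) / n ≤ 1 := (div_le_one hn0).2 hrn'
    linarith
  rw [h4, mul_pow, mul_comm]
  refine mul_le_mul_of_nonneg_left (le_trans ?_ h5) (by positivity)
  have h6 : (r : ℝ) * (r / n) ≤ η / 2 := by
    rw [← mul_div_assoc, div_le_iff₀ hn0]
    nlinarith
  linarith

theorem fact_up (n r : ℕ) : (r.factorial : ℝ) * ((n - 1).choose r : ℝ) ≤ (n : ℝ) ^ r := by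
  have h1 : r.factorial * (n - 1).choose r ≤ n ^ r := by
    rw [← Nat.descFactorial_eq_factorial_mul_choose]
    exact (Nat.descFactorial_le_pow _ _).trans (Nat.pow_le_pow_left (Nat.sub_le _ _) r)
  exact_mod_cast h1

theorem lnk (h : S_SAS) : S_LNK := by
  intro k hk γ hγ
  obtain ⟨r, hr⟩ : ∃ r : ℕ, r = k - 1 := ⟨_, rfl⟩
  have hr2 : 2 ≤ r := by omega
  have hkr : k = r + 1 := by omega
  have hk0 : (0 : ℝ) < k := by
    have : 0 < k := by omega
    exact_mod_cast this
  have hkr' : (k : ℝ) = r + 1 := by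
    rw [hkr]
    push_cast
    rfl
  obtain ⟨g, hg⟩ : ∃ g : ℝ, g = min (γ / 2) (1 / 4) := ⟨_, rfl⟩
  have hg0 : 0 < g := by
    rw [hg]
    exact lt_min (by linarith) (by norm_num)
  have hg1 : g ≤ γ / 2 := by
    rw [hg]
    exact min_le_left _ _
  have hg2 : g ≤ 1 / 4 := by
    rw [hg]
    exact min_le_right _ _
  obtain ⟨η1, hη1, H⟩ := h r hr2 (1 / k) g (by positivity) hg0
  refine ⟨η1 / 4, by positivity, ?_⟩
  intro ε hε hε1
  have hfac : (0 : ℝ) < (r.factorial : ℝ) := by exact_mod_cast r.factorial_pos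
  refine ⟨η1 / (4 * r.factorial), min ε (1 / 2), by positivity, lt_min hε (by norm_num),
    (min_le_right _ _).trans_lt (by norm_num), ?_⟩
  obtain ⟨n1, hn1⟩ := exists_nat_ge (2 * (r : ℝ) ^ 2 / η1)
  refine ⟨max n1 (r + 1), ?_⟩
  intro V _ _ hV L hLu hLc y hy hys
  obtain ⟨n, hn⟩ : ∃ n : ℕ, n = Fintype.card V := ⟨_, rfl⟩
  rw [← hn] at hV hLc hys ⊢
  rw [← hr] at hLu hLc ⊢
  have hn1' : n1 ≤ n := (le_max_left _ _).trans hV
  have hnr : r + 1 ≤ n := (le_max_right _ _).trans hV
  have hn0 : (0 : ℝ) < n := by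
    have : 0 < n := by omega
    exact_mod_cast this
  have hnη : 2 * (r : ℝ) ^ 2 ≤ η1 * n := by
    have h1 : 2 * (r : ℝ) ^ 2 / η1 ≤ n := hn1.trans (by exact_mod_cast hn1')
    rw [div_le_iff₀ hη1] at h1
    linarith
  obtain ⟨τ, hτ⟩ : ∃ τ : ℝ, τ = min ε (1 / 2) := ⟨_, rfl⟩
  rw [← hτ]
  have hτε : τ ≤ ε := by
    rw [hτ]
    exact min_le_left _ _
  have hτ2 : τ ≤ 1 / 2 := by
    rw [hτ]
    exact min_le_right _ _
  have hτ0 : 0 < τ := by
    rw [hτ]
    exact lt_min hε (by norm_num)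
  have hτ1 : 0 < 1 - τ := by linarith
  by_contra hcon
  push Not at hcon
  obtain ⟨hfail, hS⟩ := hcon
  -- the new weight
  obtain ⟨d, hd⟩ : ∃ d : ℝ, d = (n / k - (∑ v, y v) / (1 - τ)) / n := ⟨_, rfl⟩
  have hd0 : 0 ≤ d := by
    rw [hd]
    refine div_nonneg ?_ hn0.le
    rw [sub_nonneg, div_le_iff₀ hτ1]
    refine hys.trans ?_
    rw [mul_div_assoc, mul_comm]
    exact mul_le_mul_of_nonneg_left (by linarith) (by positivity)
  obtain ⟨z, hz⟩ : ∃ z : V → ℝ, z = fun v => y v / (1 - τ) + d := ⟨_, rfl⟩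
  have hyz : ∀ v, y v ≤ y v / (1 - τ) := by
    intro v
    rw [le_div_iff₀ hτ1]
    nlinarith [hy v]
  have hzy : ∀ v, y v ≤ z v := by
    intro v
    rw [hz]
    dsimp only
    linarith [hyz v]
  have hz0 : ∀ v, 0 ≤ z v := fun v => (hy v).trans (hzy v)
  have hzs : ∑ v, z v = 1 / k * (n : ℝ) := by
    rw [hz]
    simp only [Finset.sum_add_distrib, Finset.sum_const, Finset.card_univ, nsmul_eq_mul]
    rw [← Finset.sum_div, ← hn, hd]
    field_simp
    ring
  haveI : Nonempty V := by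
    rw [← Fintype.card_pos_iff, ← hn]
    omega
  have hx : (20 * (r : ℝ) + 19) * (1 / k) ≤ 20 := by
    rw [mul_one_div, div_le_iff₀ hk0, hkr']
    linarith
  -- counting
  obtain ⟨L', hL'⟩ : ∃ L' : Finset (Finset V), L' = L.filter (fun e => ¬ ∑ v ∈ e, y v ≤ 1 - τ) :=
    ⟨_, rfl⟩
  have hLsplit : L.card = (L.filter (fun e => ∑ v ∈ e, y v ≤ 1 - τ)).card + L'.card := by
    rw [hL']
    exact (Finset.card_filter_add_card_filter_not _).symm
  have hcount : ({f : Fin r → V | ∑ i, z (f i) < 1}.ncard : ℕ) + r.factorial * L'.card ≤ n ^ r := by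
    have e1 : {f : Fin r → V | ∑ i, z (f i) < 1} =
        ((univ.filter (fun f : Fin r → V => ∑ i, z (f i) < 1) : Finset (Fin r → V)) :
          Set (Fin r → V)) := by
      ext f
      simp
    rw [e1, Set.ncard_coe_finset]
    have h1 := card_image_mem r L' (fun e he => by
      rw [hL'] at he
      exact hLu e (mem_filter.1 he).1)
    have h2 : Disjoint (univ.filter (fun f : Fin r → V => ∑ i, z (f i) < 1))
        (univ.filter (fun f : Fin r → V => univ.image f ∈ L')) := by
      rw [Finset.disjoint_left]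
      intro f hf hf'
      rw [mem_filter] at hf hf'
      have h3 := hf'.2
      rw [hL', mem_filter] at h3
      have hcard := hLu _ h3.1
      have h4 := sum_image r (univ.image f) hcard f rfl z
      rw [h4] at hf
      have h5 : ∑ v ∈ univ.image f, y v / (1 - τ) ≤ ∑ v ∈ univ.image f, z v := by
        refine Finset.sum_le_sum fun v _ => ?_
        rw [hz]
        dsimp only
        linarith
      rw [← Finset.sum_div] at h5
      have h6 : 1 < (∑ v ∈ univ.image f, y v) / (1 - τ) := by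
        rw [lt_div_iff₀ hτ1]
        have := not_le.1 h3.2
        linarith
      linarith [hf.2]
    have h7 : (univ : Finset (Fin r → V)).card = n ^ r := by
      rw [Finset.card_univ, Fintype.card_fun, Fintype.card_fin, hn]
    rw [← h7]
    refine (Nat.add_le_add_left h1 _).trans ?_
    rw [← Finset.card_union_of_disjoint h2]
    exact Finset.card_le_card (Finset.subset_univ _)
  obtain ⟨N, hN⟩ : ∃ N : ℝ, N = (n : ℝ) ^ r := ⟨_, rfl⟩
  have hN0 : 0 ≤ N := by
    rw [hN]
    positivity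
  obtain ⟨Q, hQ⟩ : ∃ Q : ℝ, Q = (r.factorial : ℝ) * ((n - 1).choose r : ℝ) := ⟨_, rfl⟩
  have hQ1 : (1 - η1 / 2) * N ≤ Q := by
    rw [hN, hQ]
    exact fact_low n r (by omega) η1 hnη (by omega)
  have hQ2 : Q ≤ N := by
    rw [hN, hQ]
    exact fact_up n r
  obtain ⟨a, ha⟩ : ∃ a : ℝ, a = (1 - 1 / (k : ℝ)) ^ r := ⟨_, rfl⟩
  have ha0 : 0 ≤ a := by
    rw [ha]
    have : 1 / (k : ℝ) ≤ 1 := by
      rw [div_le_one hk0, hkr']
      have : (0 : ℝ) ≤ r := Nat.cast_nonneg r
      linarith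
    exact pow_nonneg (by linarith) r
  rw [← ha] at hLc
  have hmain : (({f : Fin r → V | ∑ i, z (f i) < 1}.ncard : ℕ) : ℝ) ≤ (a + η1) * N := by
    have h1 : (({f : Fin r → V | ∑ i, z (f i) < 1}.ncard : ℕ) : ℝ) +
        r.factorial * L'.card ≤ N := by
      rw [hN]
      exact_mod_cast hcount
    have h2 : (L.card : ℝ) = ((L.filter (fun e => ∑ v ∈ e, y v ≤ 1 - τ)).card : ℝ) +
        L'.card := by exact_mod_cast hLsplit
    rw [← hN] at hfail
    have h3 : (L.card : ℝ) - η1 / (4 * r.factorial) * N ≤ L'.card := by linarith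
    have h4 : (r.factorial : ℝ) * ((L.card : ℝ) - η1 / (4 * r.factorial) * N) ≤
        r.factorial * L'.card := mul_le_mul_of_nonneg_left h3 hfac.le
    have h5 : (r.factorial : ℝ) * ((L.card : ℝ) - η1 / (4 * r.factorial) * N) =
        r.factorial * L.card - η1 / 4 * N := by
      field_simp
    have h6 : (r.factorial : ℝ) * ((1 - a - η1 / 4) * ((n - 1).choose r : ℝ)) ≤
        r.factorial * L.card := mul_le_mul_of_nonneg_left hLc hfac.le
    have h7 : (r.factorial : ℝ) * ((1 - a - η1 / 4) * ((n - 1).choose r : ℝ)) =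
        (1 - a - η1 / 4) * Q := by
      rw [hQ]
      ring
    have h8 : (1 - (1 - a - η1 / 4)) * (N - Q) ≥ 0 :=
      mul_nonneg (by linarith) (by linarith)
    nlinarith
  have hSAS := H (1 / k) le_rfl hx V z hz0 (by rw [hzs, hn]) (by
    rw [← ha, ← hn, ← hN]
    exact hmain)
  rw [← hn] at hSAS
  -- the set
  have hSc : (((univ.filter (fun v => 1 - g ≤ z v)).card : ℕ) : ℝ) ≤ (1 / (k : ℝ) + γ) * n := by
    have h1 : (((univ.filter (fun v => 1 - g ≤ z v)).card : ℕ) : ℝ) * (1 - g) ≤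
        1 / k * (n : ℝ) := by
      rw [← hzs, ← nsmul_eq_mul, ← Finset.sum_const]
      calc ∑ _v ∈ univ.filter (fun v => 1 - g ≤ z v), (1 - g) ≤
          ∑ v ∈ univ.filter (fun v => 1 - g ≤ z v), z v :=
            Finset.sum_le_sum fun v hv => (mem_filter.1 hv).2
        _ ≤ ∑ v, z v := Finset.sum_le_sum_of_subset_of_nonneg (Finset.subset_univ _)
            fun v _ _ => hz0 v
    have h2 : 1 / (k : ℝ) ≤ (1 / k + γ) * (1 - g) := by
      have h3 : 1 / (k : ℝ) ≤ 1 / 3 := by
        refine one_div_le_one_div_of_le (by norm_num) ?_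
        exact_mod_cast hk
      have h4 : 0 < 1 / (k : ℝ) := by positivity
      nlinarith
    have h5 : (((univ.filter (fun v => 1 - g ≤ z v)).card : ℕ) : ℝ) * (1 - g) ≤
        (1 / (k : ℝ) + γ) * n * (1 - g) := by
      calc _ ≤ 1 / k * (n : ℝ) := h1
        _ ≤ (1 / k + γ) * (1 - g) * n := mul_le_mul_of_nonneg_right h2 hn0.le
        _ = _ := by ring
    exact le_of_mul_le_mul_right h5 (by linarith)
  have hfin := hS (univ.filter (fun v => 1 - g ≤ z v)) hSc
  have hsub : {v : V | v ∉ univ.filter (fun v => 1 - g ≤ z v) ∧ γ < y v} ⊆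
      {v : V | g < z v ∧ z v < 1 - g} := by
    intro v hv
    simp only [mem_filter, mem_univ, true_and, not_le, Set.mem_setOf_eq] at hv ⊢
    exact ⟨by linarith [hzy v, hv.2], hv.1⟩
  have hle : (({v : V | v ∉ univ.filter (fun v => 1 - g ≤ z v) ∧ γ < y v}.ncard : ℕ) : ℝ) ≤
      (({v : V | g < z v ∧ z v < 1 - g}.ncard : ℕ) : ℝ) := by
    exact_mod_cast Set.ncard_le_ncard hsub (Set.toFinite _)
  have : g * (n : ℝ) ≤ γ * n := mul_le_mul_of_nonneg_right (by linarith) hn0.le
  linarith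

end Pool.Agent.W19.SAM
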